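import Pool.Agent.Helper37.SU.Stmts

/-!
# The class is bounded in `L_q` (MP_aa31b4_an)
-/

set_option autoImplicit false

namespace Pool.Agent.Helper37.SU

open MeasureTheory Finset
open scoped ENNReal Classical

theorem EMB_prob (d : ℕ) : IsProbabilityMeasure (haar d) := by
  have h : IsProbabilityMeasure haar1 := by unfold haar1; infer_instance
  unfold haar
  infer_instance

theorem EMB_cont_tp {d : ℕ} (Λ : Finset (Fin d → ℤ)) (c : (Fin d → ℤ) → ℂ) :
    Continuous (tp Λ c) := by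
  unfold tp
  refine continuous_finsetSum _ fun k _ => continuous_const.mul ?_
  exact continuous_finsetProd _ fun i _ => (fourier (k i)).continuous.comp (continuous_apply i)

theorem EMB_cont_Phi {d : ℕ} (b : ℕ) (B : Bo d) : Continuous (Phi b B) := by
  unfold Phi
  refine continuous_finsetProd _ fun i _ => ?_
  unfold ik vp
  refine continuous_const.mul (continuous_finsetSum _ fun k _ => continuous_const.mul ?_)
  exact (fourier k).continuous.comp ((continuous_apply i).sub continuous_const)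

theorem EMB_fin {d : ℕ} (Λ : Finset (Fin d → ℤ)) (c : (Fin d → ℤ) → ℂ) (p : ℝ≥0∞) :
    eLpNorm (tp Λ c) p (haar d) ≠ ∞ := by
  have := EMB_prob d
  obtain ⟨K, hK⟩ : ∃ K : ℝ, ∀ t, ‖tp Λ c t‖ ≤ K := by
    refine ⟨∑ k ∈ Λ, ‖c k‖, fun t => ?_⟩
    unfold tp
    refine (norm_sum_le _ _).trans (Finset.sum_le_sum fun k _ => ?_)
    rw [norm_mul, norm_prod]
    have : ∏ i, ‖(fourier (k i) (t i) : ℂ)‖ = 1 := by
      refine Finset.prod_eq_one fun i _ => ?_
      rw [fourier_apply]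
      exact Circle.norm_coe _
    rw [this, mul_one]
  have h : MemLp (tp Λ c) p (haar d) :=
    MemLp.of_bound (EMB_cont_tp Λ c).aestronglyMeasurable K (Filter.Eventually.of_forall hK)
  exact h.2.ne

theorem EMB_scale {ι : Type} (u : ℝ) (S : Finset ι) (a : ℂ) (y : ι → ℂ) (hu : 0 < u) :
    lp u S (fun i => a * y i) = ‖a‖ * lp u S y := by
  unfold lp
  have h1 : ∑ i ∈ S, ‖a * y i‖ ^ u = ‖a‖ ^ u * ∑ i ∈ S, ‖y i‖ ^ u := by
    rw [Finset.mul_sum]
    refine Finset.sum_congr rfl fun i _ => ?_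
    rw [norm_mul, Real.mul_rpow (norm_nonneg _) (norm_nonneg _)]
  have h2 : 0 ≤ ∑ i ∈ S, ‖y i‖ ^ u :=
    Finset.sum_nonneg fun i _ => Real.rpow_nonneg (norm_nonneg _) _
  rw [h1, Real.mul_rpow (Real.rpow_nonneg (norm_nonneg _) _) h2, ← Real.rpow_mul (norm_nonneg _),
    mul_one_div_cancel hu.ne', Real.rpow_one]

theorem st_EMB (h1 : ST_DC1) (h2 : ST_DC2) (hS : ST_SYN) (hP : ST_PHB) (hA : ST_ANL) :
    ST_EMB := by
  intro d p q r _ hp hpq hpr
  obtain ⟨u, hpu, huq⟩ := exists_between hpq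
  have hu1 : 1 ≤ u := by linarith
  have hu0 : 0 < u := by linarith
  have hq0 : 0 < q := by linarith
  obtain ⟨CS, hCS, hS'⟩ := hS 3 d u q (by norm_num) hu1 huq
  obtain ⟨CP, hCP, hP'⟩ := hP 3 d (by norm_num)
  obtain ⟨CA, hCA, hA'⟩ := hA 3 d p u r le_rfl hp hpu hpr
  set al : ℝ := 1 / q + (r - 1 / p) with hal
  have hal0 : 0 < al := by
    have : 0 < 1 / q := by positivity
    rw [hal]
    linarith
  set ρ : ℝ := (3 : ℝ) ^ (-al) with hρ
  have hρ0 : 0 ≤ ρ := by positivity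
  have hρ1 : ρ < 1 := by
    rw [hρ]
    exact Real.rpow_lt_one_of_one_lt_of_neg (by norm_num) (by linarith)
  have h1ρ : 0 < 1 - ρ := by linarith
  refine ⟨CS * CP * CA * (1 - ρ)⁻¹, by positivity, ?_⟩
  intro Λ c
  obtain ⟨L, hL⟩ := h1 3 d Λ (mc r c) le_rfl
  have hL' := hL L le_rfl
  have := EMB_prob d
  have hq1 : 1 ≤ ENNReal.ofReal q := by
    rw [ENNReal.one_le_ofReal]
    linarith
  set f : TT d → ℂ := tp Λ (mc r c) with hf
  set N : ℝ := (eLpNorm (tp Λ c) (ENNReal.ofReal p) (haar d)).toReal with hN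
  have hN0 : 0 ≤ N := ENNReal.toReal_nonneg
  have hfun : f = ∑ l ∈ range (L + 1), (fun t => ∑ B ∈ lev 3 d l, zz 3 f B * Phi 3 B t) := by
    funext t
    rw [Finset.sum_apply, hL' t]
    refine Finset.sum_congr rfl fun l _ => ?_
    rw [sum_lev]
    exact Finset.sum_congr rfl fun s _ => h2 3 d s f t le_rfl
  have hl : ∀ l ∈ range (L + 1),
      eLpNorm (fun t => ∑ B ∈ lev 3 d l, zz 3 f B * Phi 3 B t) (ENNReal.ofReal q) (haar d) ≤
      ENNReal.ofReal (CS * CP * CA * N * ρ ^ l) := by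
    intro l _
    have e1 := hS' l (lev 3 d l) id (fun B => (CP : ℂ) * zz 3 f B)
      (fun B t => (CP : ℂ)⁻¹ * Phi 3 B t) (fun B hB => hB) (Set.injOn_id _) (by
        intro B _ t
        rw [norm_mul, norm_inv, Complex.norm_real, Real.norm_of_nonneg hCP.le, id]
        rw [inv_mul_le_iff₀ hCP]
        exact (hP' B t).1)
    have hCPc : (CP : ℂ) ≠ 0 := by exact_mod_cast hCP.ne'
    have e2 : (fun t : TT d => ∑ B ∈ lev 3 d l, (CP : ℂ) * zz 3 f B * ((CP : ℂ)⁻¹ * Phi 3 B t)) =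
        fun t => ∑ B ∈ lev 3 d l, zz 3 f B * Phi 3 B t := by
      funext t
      refine Finset.sum_congr rfl fun B _ => ?_
      field_simp
    rw [e2] at e1
    refine e1.trans (ENNReal.ofReal_le_ofReal ?_)
    rw [EMB_scale u (lev 3 d l) (CP : ℂ) (zz 3 f) hu0, Complex.norm_real,
      Real.norm_of_nonneg hCP.le]
    have e3 := hA' l Λ c
    have hb3 : (((3 : ℕ) : ℝ)) = 3 := by norm_num
    rw [hb3] at e3 ⊢
    have e4 : ρ ^ l = (3 : ℝ) ^ (-((l : ℝ) / q)) * (3 : ℝ) ^ (-((l : ℝ) * (r - 1 / p))) := by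
      rw [hρ, ← Real.rpow_natCast, ← Real.rpow_mul (by norm_num), ← Real.rpow_add (by norm_num),
        hal]
      refine congrArg (fun z : ℝ => (3 : ℝ) ^ z) ?_
      ring
    rw [e4]
    have e5 : 0 ≤ (3 : ℝ) ^ (-((l : ℝ) / q)) := by positivity
    calc CS * (3 : ℝ) ^ (-((l : ℝ) / q)) * (CP * lp u (lev 3 d l) (zz 3 f))
        ≤ CS * (3 : ℝ) ^ (-((l : ℝ) / q)) *
          (CP * (CA * (3 : ℝ) ^ (-((l : ℝ) * (r - 1 / p))) * N)) :=
          mul_le_mul_of_nonneg_left (mul_le_mul_of_nonneg_left e3 hCP.le) (by positivity)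
      _ = CS * CP * CA * N * ((3 : ℝ) ^ (-((l : ℝ) / q)) *
          (3 : ℝ) ^ (-((l : ℝ) * (r - 1 / p)))) := by ring
  have hterm : ∀ l ∈ range (L + 1), 0 ≤ CS * CP * CA * N * ρ ^ l := by
    intro l _
    positivity
  rw [hfun]
  refine (eLpNorm_sum_le (fun l _ => ?_) hq1).trans ?_
  · refine Continuous.aestronglyMeasurable ?_
    exact continuous_finsetSum _ fun B _ => continuous_const.mul (EMB_cont_Phi 3 B)
  refine (Finset.sum_le_sum hl).trans ?_
  rw [← ENNReal.ofReal_sum_of_nonneg hterm]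
  have hfin := EMB_fin Λ c (ENNReal.ofReal p)
  rw [← ENNReal.ofReal_toReal hfin, ← hN, ← ENNReal.ofReal_mul (by positivity)]
  refine ENNReal.ofReal_le_ofReal ?_
  rw [← Finset.mul_sum]
  have hgeo : ∑ l ∈ range (L + 1), ρ ^ l ≤ (1 - ρ)⁻¹ := by
    have hs := hasSum_geometric_of_lt_one hρ0 hρ1
    exact sum_le_hasSum _ (fun i _ => pow_nonneg hρ0 i) hs
  calc CS * CP * CA * N * ∑ l ∈ range (L + 1), ρ ^ l
      ≤ CS * CP * CA * N * (1 - ρ)⁻¹ := mul_le_mul_of_nonneg_left hgeo (by positivity)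
    _ = CS * CP * CA * (1 - ρ)⁻¹ * N := by ring

end Pool.Agent.Helper37.SU
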